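import Pool.Agent.H65.FreeBallLow

set_option autoImplicit false

namespace Pool.Agent.Results.MP_689404_al.Exact

/-- The largest size of a subset of the sphere of radius `n` of `F_r` that freely generates
a subgroup is `(2r-1)^(n/2)` for even `n` and `r (2r-1)^((n-1)/2)` for odd `n`. -/
theorem result (r n : ℕ) (hr : 1 ≤ r) (hn : 1 ≤ n) :
    IsGreatest {k : ℕ | ∃ A : Finset (FreeGroup (Fin r)), A.card = k ∧ (∀ a ∈ A, a.norm = n) ∧
        Function.Injective (FreeGroup.lift (Subtype.val : A → FreeGroup (Fin r)))}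
      (if Even n then (2 * r - 1) ^ (n / 2) else r * (2 * r - 1) ^ (n / 2)) :=
  (Pool.Agent.H65.FreeBallLow.sphere r n hr hn).1

end Pool.Agent.Results.MP_689404_al.Exact
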